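import Mathlib

namespace Pool.Agent.Results.MP_bbc03c_al.Mod8

/-- The associator. -/
def asc {R : Type} [NonAssocRing R] (a b c : R) : R := a * b * c - a * (b * c)

/-- The centre `Z(R) = N(R) ∩ K(R)`. -/
def Cen (R : Type) [NonAssocRing R] : Set R :=
  {x | (∀ a b, asc x a b = 0 ∧ asc a x b = 0 ∧ asc a b x = 0) ∧ ∀ a, x * a - a * x = 0}

def CentrallyEssential (R : Type) [NonAssocRing R] : Prop :=
  ∀ r : R, r ≠ 0 → ∃ z ∈ Cen R, z * r ∈ Cen R ∧ z * r ≠ 0

def RightAlternative (R : Type) [NonAssocRing R] : Prop := ∀ a b : R, asc a b b = 0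

def Alternative (R : Type) [NonAssocRing R] : Prop := ∀ a b : R, asc a a b = 0 ∧ asc a b b = 0

def T : Type := Fin 6 → ZMod 8

instance : AddCommGroup T := inferInstanceAs (AddCommGroup (Fin 6 → ZMod 8))

def mu (p q : T) : T :=
  ![p 0 * q 0, p 0 * q 1 + p 1 * q 0, p 0 * q 2 + p 2 * q 0, p 0 * q 3 + p 3 * q 0 + 2 * p 1 * q 1,
    p 0 * q 4 + p 4 * q 0 + 2 * p 2 * q 1, p 0 * q 5 + p 5 * q 0 + 2 * p 3 * q 2 + 2 * p 1 * q 4]

theorem add_ap (p q : T) (i : Fin 6) : (p + q) i = p i + q i := rfl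
theorem sub_ap (p q : T) (i : Fin 6) : (p - q) i = p i - q i := rfl
theorem zero_ap (i : Fin 6) : (0 : T) i = 0 := rfl

instance : NonAssocRing T :=
  { (inferInstance : AddCommGroup T) with
    mul := mu
    one := ![1, 0, 0, 0, 0, 0]
    left_distrib := fun a b c => funext fun i => by
      change mu a (b + c) i = mu a b i + mu a c i
      fin_cases i <;> simp [mu, add_ap] <;> ring
    right_distrib := fun a b c => funext fun i => by
      change mu (a + b) c i = mu a c i + mu b c i
      fin_cases i <;> simp [mu, add_ap] <;> ring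
    zero_mul := fun a => funext fun i => by
      change mu 0 a i = 0
      fin_cases i <;> simp [mu, zero_ap]
    mul_zero := fun a => funext fun i => by
      change mu a 0 i = 0
      fin_cases i <;> simp [mu, zero_ap]
    one_mul := fun a => funext fun i => by
      change mu ![1, 0, 0, 0, 0, 0] a i = a i
      fin_cases i <;> simp [mu]
    mul_one := fun a => funext fun i => by
      change mu a ![1, 0, 0, 0, 0, 0] i = a i
      fin_cases i <;> simp [mu] }

theorem mul_eq (p q : T) : p * q = mu p q := rfl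

theorem asc_eq (a b c : T) :
    asc a b c = ![0, 0, 0, 0, 0, 4 * a 1 * (b 1 * c 2 - b 2 * c 1)] := funext fun i => by
  rw [asc, sub_ap, mul_eq, mul_eq, mul_eq, mul_eq]
  fin_cases i <;> simp [mu] <;> ring

theorem cen (x : T) (h1 : 2 * x 1 = 0) (h2 : 2 * x 2 = 0) (h3 : 2 * x 3 = 0) (h4 : 2 * x 4 = 0) :
    x ∈ Cen T := by
  refine ⟨fun a b => ⟨?_, ?_, ?_⟩, fun a => ?_⟩
  · rw [asc_eq]; funext i; fin_cases i <;> simp [zero_ap]
    linear_combination 2 * (a 1 * b 2 - a 2 * b 1) * h1
  · rw [asc_eq]; funext i; fin_cases i <;> simp [zero_ap]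
    linear_combination 2 * a 1 * b 2 * h1 - 2 * a 1 * b 1 * h2
  · rw [asc_eq]; funext i; fin_cases i <;> simp [zero_ap]
    linear_combination 2 * a 1 * b 1 * h2 - 2 * a 1 * b 2 * h1
  · funext i
    rw [sub_ap, mul_eq, mul_eq]
    fin_cases i <;> simp [mu, zero_ap]
    · ring
    · ring
    · ring
    · ring
    · linear_combination a 1 * h2 - a 2 * h1
    · linear_combination a 2 * h3 + a 4 * h1 - a 3 * h2 - a 1 * h4

def sc (c : ZMod 8) : T := ![c, 0, 0, 0, 0, 0]

theorem result : ∃ (R : Type) (_ : NonAssocRing R),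
    RightAlternative R ∧ ¬ Alternative R ∧ CentrallyEssential R := by
  refine ⟨T, inferInstance, fun a b => ?_, fun h => ?_, fun r hr => ?_⟩
  · rw [asc_eq]; funext i; fin_cases i <;> simp [zero_ap]
    ring
  · have := congrFun (h ![0, 1, 0, 0, 0, 0] ![0, 0, 1, 0, 0, 0]).1 5
    rw [asc_eq] at this
    revert this
    simp only [zero_ap]
    decide
  · have e : ∀ (c : ZMod 8) (i : Fin 6), (sc c * r) i = c * r i := by
      intro c i
      rw [mul_eq]; fin_cases i <;> simp [mu, sc]
    have key : ∀ c : ZMod 8, (∀ i, 2 * (c * r i) = 0) → (∃ i, c * r i ≠ 0) →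
        ∃ z ∈ Cen T, z * r ∈ Cen T ∧ z * r ≠ 0 := by
      rintro c h ⟨i, hi⟩
      refine ⟨sc c, cen _ (by simp [sc]) (by simp [sc]) (by simp [sc]) (by simp [sc]),
        cen _ (by rw [e, h]) (by rw [e, h]) (by rw [e, h]) (by rw [e, h]), fun h0 => hi ?_⟩
      rw [← e, h0, zero_ap]
    by_cases h4 : ∃ i, 4 * r i ≠ 0
    · refine key 4 (fun i => ?_) h4
      generalize r i = t; revert t; decide
    push Not at h4
    by_cases h2 : ∃ i, 2 * r i ≠ 0
    · exact key 2 (fun i => by linear_combination h4 i) h2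
    push Not at h2
    refine key 1 (fun i => by linear_combination h2 i) ?_
    by_contra hc
    push Not at hc
    exact hr (funext fun i => by simpa [zero_ap] using hc i)

end Pool.Agent.Results.MP_bbc03c_al.Mod8
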